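import Pool.Agent.W528.HJ.Stm
import Pool.Agent.W528.HF.Main

/-!
# Cyclic coverings of products of curves: the final theorem
-/

set_option autoImplicit false

namespace Pool.Agent.W528.HJ

open Finset Polynomial Pool.Agent.W528.HA Pool.Agent.W528.HB Pool.Agent.W528.HD
  Pool.Agent.W528.HF

/-- The traces of the powers of `Φ` are the sums `covSum`. -/
def CovTrace (κ : Type) [Field κ] [Fintype κ] {E : Type} [Field E] (n e r : ℕ) {m m₁ m₂ : ℕ}
    (f : Fin m → κ[X]) (a : Fin m → ℕ) (g : Fin m₁ → κ) (d : Fin m₁ → ℕ)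
    (h : Fin m₂ → κ[X]) (b : Fin m₂ → ℕ) (z : κ) (μ : E) (j s₁ s₂ : ℕ) {W : Type}
    [AddCommGroup W] [Module E W] (Φ : Module.End E W) : Prop :=
  ∀ (L : Type) [Field L] [Fintype L] [Algebra κ L],
    LinearMap.trace E W (Φ ^ Module.finrank κ L)
      = covSum L E n e r (fun i => (f i).map (algebraMap κ L)) a (fun i => algebraMap κ L (g i)) d
        (fun l => (h l).map (algebraMap κ L)) b (algebraMap κ L z) μ j s₁ s₂

lemma covSum_eq {L : Type} [Field L] [Fintype L] {R : Type} [CommRing R] (n e r : ℕ)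
    {m m₁ m₂ : ℕ} (f : Fin m → L[X]) (a : Fin m → ℕ) (g : Fin m₁ → L) (d : Fin m₁ → ℕ)
    (h : Fin m₂ → L[X]) (b : Fin m₂ → ℕ) (z : L) (μ : R) (j s₁ s₂ : ℕ) :
    covSum L R n e r f a g d h b z μ j s₁ s₂
      = gSum L R (n * e * r)
        (Sum.elim (Sum.elim (fun _ : Fin m => (1 : L)) (fun _ : Fin m₁ => (1 : L)))
          (fun _ : Fin m₂ => (0 : L)))
        (Sum.elim (Sum.elim (fun i => -(f i)) (fun i => -C (g i))) h)
        (Sum.elim (Sum.elim (fun i => e * r * (j * a i % n)) (fun i => n * r * (s₁ * d i % e)))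
          (fun l => n * e * (s₂ * b l % r))) 0 z μ := by
  unfold covSum gSum
  refine sum_congr rfl fun x _ => sum_congr rfl fun t _ => ?_
  rw [Fintype.prod_sum_type, Fintype.prod_sum_type]
  simp only [Sum.elim_inl, Sum.elim_inr, eval_neg, eval_C, one_mul, sub_eq_add_neg, zero_mul,
    zero_add, pow_zero, mul_one]

lemma coprime_of_sum {n P : ℕ} {m : ℕ} (a : Fin m → ℕ) (ha : ∀ i, 0 < a i)
    (hP : ∀ l : ℕ, l.Prime → l ∣ n → P ≤ l) (h : ∑ i, a i < P) (i : Fin m) :
    (a i).Coprime n := by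
  refine coprime_of_primes (ha i) fun l hl hln => ?_
  have h1 := hP l hl hln
  have h2 : a i ≤ ∑ i, a i := single_le_sum (f := a) (fun _ _ => Nat.zero_le _) (mem_univ i)
  omega

/-- If `(ρ φ) ^ m - q ^ m` is injective on all parts, it is injective. -/
theorem pow_ker {E : Type} [Field E] {G : Type} [Group G] {V : Type} [AddCommGroup V] [Module E V]
    (ρ : Representation E G V) {X : Type} [Fintype X] [DecidableEq X] (W : X → Submodule E V)
    (hW : DirectSum.IsInternal W) (hstab : ∀ χ g, ∀ v ∈ W χ, ρ g v ∈ W χ) (φ : G) (q : E)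
    {m : ℕ} (h : ∀ χ, ∀ w : W χ,
      (((ρ φ).restrict (hstab χ φ)) ^ m) w = q ^ m • w → w = 0)
    (v : V) (hfix : ((ρ φ) ^ m) v = q ^ m • v) : v = 0 := by
  classical
  obtain ⟨w, hw⟩ : ∃ w : (Π₀ χ, W χ), DirectSum.coeAddMonoidHom W w = v := hW.surjective v
  have hpow : ∀ (χ : X) (n : ℕ) (u : W χ),
      ((((ρ φ).restrict (hstab χ φ)) ^ n) u : V) = (ρ φ ^ n) (u : V) := by
    intro χ n
    induction n with
    | zero => intro u; rfl
    | succ n ih =>
      intro u
      rw [pow_succ, Module.End.mul_apply, ih, pow_succ, Module.End.mul_apply]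
      rfl
  set w' : (Π₀ χ, W χ) := DFinsupp.mapRange
    (fun χ u => (((ρ φ).restrict (hstab χ φ)) ^ m) u) (fun χ => map_zero _) w with hw'
  set w'' : (Π₀ χ, W χ) := DFinsupp.mapRange
    (fun χ (u : W χ) => q ^ m • u) (fun χ => smul_zero _) w with hw''
  have h1 : DirectSum.coeAddMonoidHom W w' = q ^ m • v := by
    rw [← hfix, ← hw]
    rw [DirectSum.coeAddMonoidHom_eq_dfinsuppSum, DirectSum.coeAddMonoidHom_eq_dfinsuppSum]
    rw [DFinsupp.sum_mapRange_index (fun _ => rfl)]
    rw [DFinsupp.sum, DFinsupp.sum, map_sum]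
    exact Finset.sum_congr rfl fun χ _ => hpow χ m (w χ)
  have h1' : DirectSum.coeAddMonoidHom W w'' = q ^ m • v := by
    rw [← hw]
    rw [DirectSum.coeAddMonoidHom_eq_dfinsuppSum, DirectSum.coeAddMonoidHom_eq_dfinsuppSum]
    rw [DFinsupp.sum_mapRange_index (fun _ => rfl)]
    rw [DFinsupp.sum, DFinsupp.sum, Finset.smul_sum]
    rfl
  have h2 : w' = w'' := hW.injective (h1.trans h1'.symm)
  have h3 : ∀ χ, w χ = 0 := by
    intro χ
    have h4 : (((ρ φ).restrict (hstab χ φ)) ^ m) (w χ) = q ^ m • w χ := by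
      have h5 := congrArg (fun u : (Π₀ χ, W χ) => u χ) h2
      simpa [hw', hw''] using h5
    exact h χ (w χ) h4
  rw [← hw, show w = 0 from DFinsupp.ext h3, map_zero]

/-- If no `(ρ φ) ^ m - q ^ m` has a kernel, there are no subquotients on which a subgroup of finite
index acts through `ε`. -/
theorem subq {E : Type} [Field E] {G : Type} [Group G] {V : Type} [AddCommGroup V] [Module E V]
    [FiniteDimensional E V] (ρ : Representation E G V) (φ : G) (q : E)
    (h : ∀ M : ℕ, 0 < M → ∀ v : V, ((ρ φ) ^ M) v = q ^ M • v → v = 0)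
    (ε : G →* E) (hε : ε φ = q) (H : Subgroup G) (hH : H.FiniteIndex) (V₁ V₂ : Submodule E V)
    (h12 : V₁ ≤ V₂) (hv : ∀ g ∈ H, ∀ v ∈ V₂, ρ g v - ε g • v ∈ V₁) : V₁ = V₂ := by
  obtain ⟨m, hm, hmH⟩ : ∃ m : ℕ, 0 < m ∧ φ ^ m ∈ H :=
    ⟨_, Nat.factorial_pos H.index, Subgroup.pow_mem_of_index_ne_zero_of_dvd
      hH.index_ne_zero φ (fun i hi hi' => Nat.dvd_factorial hi hi')⟩
  set T : V →ₗ[E] V := (ρ φ) ^ m - (q ^ m) • LinearMap.id with hT
  have hTv : ∀ v, T v = ((ρ φ) ^ m) v - q ^ m • v := fun v => rfl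
  have hinj : Function.Injective T := by
    rw [← LinearMap.ker_eq_bot, LinearMap.ker_eq_bot']
    intro v hv0
    rw [hTv, sub_eq_zero] at hv0
    exact h m hm v hv0
  have hmap : V₂.map T ≤ V₁ := by
    rintro _ ⟨v, hv2, rfl⟩
    have h1 := hv _ hmH v hv2
    rw [map_pow, map_pow, hε] at h1
    exact h1
  refine Submodule.eq_of_le_of_finrank_le h12 ?_
  rw [LinearEquiv.finrank_eq (Submodule.equivMapOfInjective T hinj V₂)]
  exact Submodule.finrank_mono hmap

theorem fin_cov (hGN : GN) (hONE : ONE) (hGE : GE) (hAW : AW) (hPW : PW)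
    {n e r c D P Q R : ℕ} (hn : 2 ≤ n) (he : 0 < e) (hr : 0 < r) (hen : e.Coprime n)
    (hrn : r.Coprime n) (her : e.Coprime r)
    (hP : ∀ l : ℕ, l.Prime → l ∣ n → P ≤ l) (hQ : ∀ l : ℕ, l.Prime → l ∣ e → Q ≤ l)
    (hR : ∀ l : ℕ, l.Prime → l ∣ r → R ≤ l)
    [Fact c.Prime] (hc : n * e * r ∣ c - 1)
    (κ : Type) [Field κ] [Fintype κ] [CharP κ c]
    {z : κ} (hz : IsPrimitiveRoot z (n * e * r)) {E : Type} [Field E] [CharZero E] [IsAlgClosed E]
    {μ : E} (hμ : IsPrimitiveRoot μ (n * e * r)) {m m₁ m₂ : ℕ} (hD : 1 ≤ D) (f : Fin m → κ[X])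
    (hf : ∀ i, (f i).natDegree ≤ D)
    (a : Fin m → ℕ) (ha : ∀ i, 0 < a i) (g : Fin m₁ → κ) (d : Fin m₁ → ℕ) (hd : ∀ i, 0 < d i)
    (h : Fin m₂ → κ[X]) (hh : ∀ l, (h l).natDegree ≤ D) (b : Fin m₂ → ℕ) (hb : ∀ l, 0 < b l)
    (hadb : D * (Q * R * ∑ i, a i + P * R * ∑ i, d i + P * Q * ∑ l, b l) < P * Q * R)
    {G : Type} [Group G] {V : Type} [AddCommGroup V] [Module E V] [FiniteDimensional E V]
    (ρ : Representation E G V) (W : Fin (n - 1) × Fin e × Fin r → Submodule E V)
    (hW : DirectSum.IsInternal W) (hstab : ∀ χ g, ∀ v ∈ W χ, ρ g v ∈ W χ)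
    (φ : G) (hφ : ∀ χ, CovTrace κ n e r f a g d h b z μ (χ.1 + 1) χ.2.1 χ.2.2
      ((ρ φ).restrict (hstab χ φ))) :
    (∀ (L : Type) [Field L] [Fintype L] [Algebra κ L],
      LinearMap.trace E V ((ρ φ) ^ Module.finrank κ L)
        = (covPts L n e r (fun i => (f i).map (algebraMap κ L)) a
            (fun i => algebraMap κ L (g i)) d (fun l => (h l).map (algebraMap κ L)) b : E)
          - (linePts L e (fun i => algebraMap κ L (g i)) d : E)
            * (basePts L r (fun l => (h l).map (algebraMap κ L)) b : E)) ∧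
    ∀ (ε : G →* E), ε φ = Fintype.card κ → ∀ (H : Subgroup G), H.FiniteIndex →
      ∀ V₁ V₂ : Submodule E V, V₁ ≤ V₂ → (∀ g ∈ H, ∀ v ∈ V₂, ρ g v - ε g • v ∈ V₁) →
        V₁ = V₂ := by
  classical
  have hcp : c.Prime := Fact.out
  obtain ⟨F, hF0, hF⟩ := FiniteField.card κ c
  have hF0' : 0 < (F : ℕ) := F.2
  have hn0 : 0 < n := by omega
  have hN : 2 ≤ n * e * r := by
    rw [mul_assoc]
    exact le_trans hn (Nat.le_mul_of_pos_right n (Nat.mul_pos he hr))
  have hall : Q * R * ∑ i, a i + P * R * ∑ i, d i + P * Q * ∑ l, b l < P * Q * R :=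
    (Nat.le_mul_of_pos_left _ (by omega)).trans_lt hadb
  have hA : ∑ i, a i < P := by
    by_contra hcon
    have h1 : P * Q * R ≤ Q * R * ∑ i, a i := by
      calc P * Q * R = Q * R * P := by ring
        _ ≤ Q * R * ∑ i, a i := Nat.mul_le_mul_left _ (not_lt.mp hcon)
    omega
  have hDd : ∑ i, d i < Q := by
    by_contra hcon
    have h1 : P * Q * R ≤ P * R * ∑ i, d i := by
      calc P * Q * R = P * R * Q := by ring
        _ ≤ P * R * ∑ i, d i := Nat.mul_le_mul_left _ (not_lt.mp hcon)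
    omega
  have hBb : ∑ l, b l < R := by
    by_contra hcon
    have h1 : P * Q * R ≤ P * Q * ∑ l, b l := Nat.mul_le_mul_left _ (not_lt.mp hcon)
    omega
  refine ⟨?_, ?_⟩
  · intro L _ _ _
    have hzL : IsPrimitiveRoot (algebraMap κ L z) (n * e * r) :=
      hz.map_of_injective (algebraMap κ L).injective
    rw [← hPW L n e r (algebraMap κ L z) hn0 he hr hzL E μ hμ m m₁ m₂ _ a _ d _ b
      (fun i => ⟨ha i, coprime_of_sum a ha hP hA i⟩)
      (fun i => ⟨hd i, coprime_of_sum d hd hQ hDd i⟩)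
      (fun i => ⟨hb i, coprime_of_sum b hb hR hBb i⟩)]
    have hmaps : ∀ χ, Set.MapsTo (ρ φ ^ Module.finrank κ L) (W χ) (W χ) := by
      intro χ
      have : ∀ k : ℕ, Set.MapsTo (ρ φ ^ k) (W χ) (W χ) := by
        intro k
        induction k with
        | zero => intro v hv; simpa using hv
        | succ k ih =>
          intro v hv
          rw [pow_succ, Module.End.mul_apply]
          exact ih (hstab χ φ v hv)
      exact this _
    rw [LinearMap.trace_eq_sum_trace_restrict hW hmaps]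
    rw [Fintype.sum_prod_type]
    have h1 : ∀ χ : Fin (n - 1) × Fin e × Fin r,
        LinearMap.trace E (W χ) ((ρ φ ^ Module.finrank κ L).restrict (hmaps χ))
          = covSum L E n e r (fun i => (f i).map (algebraMap κ L)) a
            (fun i => algebraMap κ L (g i)) d (fun l => (h l).map (algebraMap κ L)) b
            (algebraMap κ L z) μ (χ.1 + 1) χ.2.1 χ.2.2 := by
      intro χ
      rw [← hφ χ L]
      congr 1
      have : ∀ (k : ℕ) (hk : Set.MapsTo (ρ φ ^ k) (W χ) (W χ)),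
          (ρ φ ^ k).restrict hk = ((ρ φ).restrict (hstab χ φ)) ^ k := by
        intro k hk
        ext v
        have h2 : ∀ (k : ℕ) (v : W χ),
            ((((ρ φ).restrict (hstab χ φ)) ^ k) v : V) = (ρ φ ^ k) (v : V) := by
          intro k
          induction k with
          | zero => intro v; rfl
          | succ k ih =>
            intro v
            rw [pow_succ, Module.End.mul_apply, ih, pow_succ, Module.End.mul_apply]
            rfl
        rw [h2]
        rfl
      exact this _ _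
    rw [sum_congr rfl fun i _ => (Fintype.sum_prod_type _).trans
      (sum_congr rfl fun s₁ _ => sum_congr rfl fun s₂ _ => h1 (i, s₁, s₂))]
    simp only
    have h3 : ∀ g : ℕ → E, ∑ j ∈ Ico 1 n, g j = ∑ i : Fin (n - 1), g (i + 1) := by
      intro g
      rw [Finset.sum_Ico_eq_sum_range, ← Fin.sum_univ_eq_sum_range (fun i => g (1 + i))]
      exact sum_congr rfl fun i _ => by rw [add_comm]
    rw [h3]
    refine sum_congr rfl fun i _ => ?_
    rw [← Fin.sum_univ_eq_sum_range (fun s₁ => ∑ s₂ ∈ range r, covSum L E n e r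
      (fun i => (f i).map (algebraMap κ L)) a
            (fun i => algebraMap κ L (g i)) d (fun l => (h l).map (algebraMap κ L)) b
            (algebraMap κ L z) μ (i + 1) s₁ s₂) e]
    refine sum_congr rfl fun s₁ _ => ?_
    exact (Fin.sum_univ_eq_sum_range (fun s₂ => covSum L E n e r
      (fun i => (f i).map (algebraMap κ L)) a
            (fun i => algebraMap κ L (g i)) d (fun l => (h l).map (algebraMap κ L)) b
            (algebraMap κ L z) μ (i + 1) s₁ s₂) r)
  · intro ε hε H hH V₁ V₂ h12 hv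
    refine subq ρ φ (Fintype.card κ : E) (fun M hM => pow_ker ρ W hW hstab φ _ ?_) ε hε H hH
      V₁ V₂ h12 hv
    rintro ⟨i, s₁, s₂⟩ w hw
    have hi := i.2
    obtain ⟨j', hj', hsum⟩ := hAW n e r c F D P Q R hn he hr hen hrn her hP hQ hR hcp
      hc hF0' m m₁ m₂ a d b hadb (i + 1) s₁ s₂ (by omega) (by omega) s₁.2 s₂.2
    refine g_op hGN hONE hGE hN κ hF hz hμ hD
      (Sum.elim (Sum.elim (fun _ : Fin m => (1 : κ)) (fun _ : Fin m₁ => (1 : κ)))
          (fun _ : Fin m₂ => (0 : κ)))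
      (Sum.elim (Sum.elim (fun i => -(f i)) (fun i => -C (g i))) h) ?_
      (Sum.elim (Sum.elim (fun k => e * r * ((i + 1) * a k % n))
        (fun k => n * r * (s₁ * d k % e))) (fun k => n * e * (s₂ * b k % r))) ?_
      0 (by omega) hj' ?_ ((ρ φ).restrict (hstab (i, s₁, s₂) φ)) ?_ M hM w hw
    · rintro ((k | k) | k)
      · rw [Sum.elim_inl, Sum.elim_inl, natDegree_neg]
        exact hf k
      · rw [Sum.elim_inl, Sum.elim_inr, natDegree_neg, natDegree_C]
        exact Nat.zero_le _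
      · rw [Sum.elim_inr]
        exact hh k
    · rintro ((k | k) | k)
      · rw [Sum.elim_inl, Sum.elim_inl, show n * e * r = e * r * n from by ring]
        exact Nat.mul_lt_mul_of_pos_left (Nat.mod_lt _ hn0) (Nat.mul_pos he hr)
      · rw [Sum.elim_inl, Sum.elim_inr, show n * e * r = n * r * e from by ring]
        exact Nat.mul_lt_mul_of_pos_left (Nat.mod_lt _ he) (Nat.mul_pos hn0 hr)
      · rw [Sum.elim_inr]
        exact Nat.mul_lt_mul_of_pos_left (Nat.mod_lt _ hr) (Nat.mul_pos hn0 he)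
    · rw [Fintype.sum_sum_type, Fintype.sum_sum_type]
      simp only [Sum.elim_inl, Sum.elim_inr, mul_zero, zero_mul, Nat.zero_mod,
        Finset.sum_const_zero, add_zero]
      exact hsum
    · intro L _ _ _
      rw [hφ (i, s₁, s₂) L, covSum_eq]
      congr 1
      · funext i
        rcases i with (i | i) | i
        · simp
        · simp
        · simp
      · funext i
        rcases i with (i | i) | i
        · simp
        · simp
        · simp

end Pool.Agent.W528.HJ
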