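import Pool.Agent.W528.HD.Stm

/-!
# Cyclic coverings of products of curves: statements of the parts
-/

set_option autoImplicit false

namespace Pool.Agent.W528.HJ

open Finset Polynomial Pool.Agent.W528.HA Pool.Agent.W528.HB Pool.Agent.W528.HD

/-- The sum over `(x, t) ∈ L²` of the value at `∏ (x - f_i(t)) ^ (e r (j a_i mod n)) *
∏ (x - g_i) ^ (n r (s₁ d_i mod e)) * ∏ h_l(t) ^ (n e (s₂ b_l mod r))` of the character of
order `n e r` of `L` belonging to `z ↦ μ`. -/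
noncomputable def covSum (L : Type) [Field L] [Fintype L] (R : Type) [CommRing R] (n e r : ℕ)
    {m m₁ m₂ : ℕ} (f : Fin m → L[X]) (a : Fin m → ℕ) (g : Fin m₁ → L) (d : Fin m₁ → ℕ)
    (h : Fin m₂ → L[X]) (b : Fin m₂ → ℕ) (z : L) (μ : R) (j s₁ s₂ : ℕ) : R :=
  ∑ x : L, ∑ t : L, kv (n * e * r) z μ
    (((∏ i, (x - (f i).eval t) ^ (e * r * (j * a i % n)))
        * (∏ i, (x - g i) ^ (n * r * (s₁ * d i % e)))
        * ∏ l, ((h l).eval t) ^ (n * e * (s₂ * b l % r))) ^ ((Fintype.card L - 1) / (n * e * r)))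

/-- The number of points `(x, w)` over `L` of the affine curve `w ^ e = ∏ (x - g_i) ^ d_i`. -/
noncomputable def linePts (L : Type) [Field L] (e : ℕ) {m₁ : ℕ} (g : Fin m₁ → L)
    (d : Fin m₁ → ℕ) : ℕ :=
  Set.ncard {v : L × L | v.2 ^ e = ∏ i, (v.1 - g i) ^ d i}

/-- The number of points `((x, w), (t, u), y)` over `L` of the affine surface
`w ^ e = ∏ (x - g_i) ^ d_i`, `u ^ r = ∏ h_l(t) ^ b_l`, `y ^ n = ∏ (x - f_i(t)) ^ a_i`. -/
noncomputable def covPts (L : Type) [Field L] (n e r : ℕ) {m m₁ m₂ : ℕ} (f : Fin m → L[X])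
    (a : Fin m → ℕ) (g : Fin m₁ → L) (d : Fin m₁ → ℕ) (h : Fin m₂ → L[X]) (b : Fin m₂ → ℕ) : ℕ :=
  Set.ncard {v : (L × L) × (L × L) × L | v.1.2 ^ e = ∏ i, (v.1.1 - g i) ^ d i ∧
    v.2.1.2 ^ r = ∏ l, ((h l).eval v.2.1.1) ^ b l ∧
    v.2.2 ^ n = ∏ i, (v.1.1 - (f i).eval v.2.1.1) ^ a i}

/-- The sum of all character sums. -/
def PW : Prop :=
  ∀ (L : Type) [Field L] [Fintype L] (n e r : ℕ) (z : L), 0 < n → 0 < e → 0 < r →
    IsPrimitiveRoot z (n * e * r) → ∀ (E : Type) [Field E] [CharZero E] (μ : E),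
    IsPrimitiveRoot μ (n * e * r) → ∀ (m m₁ m₂ : ℕ) (f : Fin m → L[X]) (a : Fin m → ℕ)
    (g : Fin m₁ → L) (d : Fin m₁ → ℕ) (h : Fin m₂ → L[X]) (b : Fin m₂ → ℕ),
    (∀ i, 0 < a i ∧ (a i).Coprime n) → (∀ i, 0 < d i ∧ (d i).Coprime e) →
    (∀ l, 0 < b l ∧ (b l).Coprime r) →
    ∑ j ∈ Ico 1 n, ∑ s₁ ∈ range e, ∑ s₂ ∈ range r, covSum L E n e r f a g d h b z μ j s₁ s₂
      = (covPts L n e r f a g d h b : E) - (linePts L e g d : E) * (basePts L r h b : E)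

/-- The arithmetic of the exponents. -/
def AW : Prop :=
  ∀ (n e r c F D P Q R : ℕ), 2 ≤ n → 0 < e → 0 < r → e.Coprime n → r.Coprime n → e.Coprime r →
    (∀ l : ℕ, l.Prime → l ∣ n → P ≤ l) → (∀ l : ℕ, l.Prime → l ∣ e → Q ≤ l) →
    (∀ l : ℕ, l.Prime → l ∣ r → R ≤ l) →
    c.Prime → n * e * r ∣ c - 1 → 0 < F → ∀ (m m₁ m₂ : ℕ) (a : Fin m → ℕ) (d : Fin m₁ → ℕ)
    (b : Fin m₂ → ℕ),
    D * (Q * R * ∑ i, a i + P * R * ∑ i, d i + P * Q * ∑ l, b l) < P * Q * R →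
    ∀ j s₁ s₂ : ℕ, 0 < j → j < n → s₁ < e → s₂ < r →
      ∃ j' : ℕ, j'.Coprime (n * e * r) ∧
        D * (∑ i, ∑ k ∈ range F, (j' * (e * r * (j * a i % n)) * c ^ k) % (n * e * r)
          + ∑ i, ∑ k ∈ range F, (j' * (n * r * (s₁ * d i % e)) * c ^ k) % (n * e * r)
          + ∑ l, ∑ k ∈ range F, (j' * (n * e * (s₂ * b l % r)) * c ^ k) % (n * e * r))
          < F * (n * e * r)

end Pool.Agent.W528.HJ
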